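import Pool.Agent.PCO.StmtsE

/-! Squad NTS / PCO, row E5: there is no pair of different boxes with a common apex and a common
boundary ray. -/

set_option autoImplicit false

open Matrix Filter Topology

namespace Pool.Agent.PCO.H20

open Pool.Agent.PFS Pool.Agent.PFJ

/-- an extreme vector is not a unit of a subspace of dimension at least three -/
theorem not_unit_of_ext {n : ℕ} {C : Set (V n)} (P : PCone C) {L : Submodule ℝ (V n)} {y : V n}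
    (hy : Ext C y) (h3 : 3 ≤ Module.finrank ℝ L) : ¬ Unt C L y := by
  intro hu
  have h1 := (Pool.Agent.PFJ.H76.unf n C P L y hu).2.2.2.2.2 hy
  have h2 : Module.finrank ℝ L ≤ 1 := by
    refine finrank_le_one (⟨y, hu.1⟩ : L) fun z => ?_
    obtain ⟨c, hc⟩ := h1 z z.2
    refine ⟨c, Subtype.ext ?_⟩
    rw [hc]
    rfl
  omega

theorem e5 (wbf : WbfStmt) (bf1 : Bf1Stmt) (bf2 : Bf2Stmt) (bf3 : Bf3Stmt) (bxm : BxmStmt)
    (bxl : BxlStmt) (hsq : HsqStmt) (e1 : E1Stmt) (e4 : E4Stmt) (hor : HorF) : E5Stmt := by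
  intro n C Γ d h U1 U2 v b hb1 hb2 hd1 hd2 hne hB1 hB2
  have hcc : CC C Γ := h.toCC
  have P : PCone C := hcc.toPCone
  have hul := hcc.hul
  obtain ⟨-, -, -, -, hfr⟩ := wbf n
  obtain ⟨-, -, -, -, -, himg⟩ := Pool.Agent.PFJ.H32.img n
  obtain ⟨ψ, hψ, -, -⟩ := (bf3 n C Γ hcc h.maxc U1 v hb1).1 b hB1
  obtain ⟨c, hc1, hc2, hc3⟩ := hsq n C Γ hcc h.maxc U1 v b ψ hb1 hB1 hψ
  obtain ⟨hvL, -, -, -, hst, hfu, -, hlam, -⟩ := bf1 n C Γ hcc h.maxc U1 v hb1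
  have hind : ∀ m, Ind2 b (c m) := by
    intro m α β h0
    have h1 := congrArg ψ h0
    rw [map_add, map_smul, map_smul, hψ.at_, hc2, map_zero, smul_zero, zero_add, smul_eq_mul,
      mul_one] at h1
    rw [h1, zero_smul, add_zero] at h0
    rcases smul_eq_zero.1 h0 with h2 | h2
    · exact ⟨h2, h1⟩
    · exact absurd h2 hB1.2.2.1
  have hunit : ∀ m, Unt C U1 (b + c m) := fun m =>
    hst b hB1.1 (c m) (hc1 m).1 hB1.2.1 (hc1 m).2.1 (hind m)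
  have hyC : ∀ m, b + c m + v ∈ C := by
    intro m
    have h1 := (hfu (b + c m) (hunit m).1 1).2 ⟨hunit m, one_pos⟩
    rwa [one_smul] at h1
  have hyH : ∀ m, b + c m + v ∈ Hull C Γ := fun m =>
    hul.add _ (hul.add _ (hul.lamHull _ (hlam b hB1.1 hB1.2.1 hB1.2.2.1).1) _
      (hul.lamHull _ (hlam (c m) (hc1 m).1 (hc1 m).2.1 (hc1 m).2.2.1).1)) _ (hul.lamHull _ hvL)
  obtain ⟨φ, g, s, p, hφ, hg, hs, hp, hlim⟩ :=
    Pool.Agent.PFS.H60.zom n C Γ hcc (fun m => b + c m + v) hyC hyH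
  have bf26 := (bf2 n C Γ hcc h.maxc U1 v hb1).2.2.2.2.2.1
  have bf26' := (bf2 n C Γ hcc h.maxc U2 v hb2).2.2.2.2.2.1
  have hlim' : Tendsto (fun m => s m • act (g m) (b + c (φ m)) + s m • act (g m) v) atTop
      (𝓝 p) := by
    refine hlim.congr fun m => ?_
    rw [CC.act_add (g m) (b + c (φ m)) v, smul_add]
  obtain ⟨χ, U', v', f', hχ, hB', -, -, -, hlv, hlU, -, hdim⟩ :=
    bxl n C Γ hcc h.maxc (fun m => img (g m) U1) (fun m => s m • act (g m) v)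
      (fun m => s m • act (g m) (b + c (φ m))) p (fun m => (bf26 (g m) (hg m) (s m) (hs m)).1)
      (fun m => Submodule.smul_mem _ _ (mem_img.2 ⟨_, (hunit (φ m)).1, rfl⟩)) hp hlim'
  have hdU' : Module.finrank ℝ U' = d := by
    rw [← hdim 0, hfr, hd1]
  have hev := e1 n C Γ d h U' v' (fun m => img (g (χ m)) U1)
    (fun m => s (χ m) • act (g (χ m)) v) hB' hdU'
    (fun m => (bf26 (g (χ m)) (hg _) (s (χ m)) (hs _)).1) (fun m => by rw [hfr, hd1]) hlU hlv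
  obtain ⟨N, hN⟩ := eventually_atTop.1 hev
  -- the boxes with the apex `v'`
  have hbox : ∀ (U : Submodule ℝ (V n)), Bx C Γ U v → ∀ m, N ≤ m → Bx C Γ (img (g (χ m)) U) v' := by
    intro U hU m hm
    obtain ⟨κ, hκ, hκ'⟩ := hN m hm
    have h1 := ((bf2 n C Γ hcc h.maxc U v hU).2.2.2.2.2.1 (g (χ m)) (hg _) (s (χ m)) (hs _)).1
    rw [hκ'] at h1
    have h2 := (bf2 n C Γ hcc h.maxc _ _ h1).2.2.2.2.1 κ⁻¹ (inv_pos.2 hκ)
    rwa [smul_smul, inv_mul_cancel₀ hκ.ne', one_smul] at h2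
  have hbd : ∀ m, Bd C (img (g m) U1) (act (g m) b) ∧ Bd C (img (g m) U2) (act (g m) b) := by
    intro m
    have h1 := ((bf26 (g m) (hg m) 1 one_pos).2.2 b).2 hB1
    have h2 := ((bf26' (g m) (hg m) 1 one_pos).2.2 b).2 hB2
    rw [one_smul] at h1 h2
    exact ⟨h1, h2⟩
  have hext : ∀ m, N ≤ m → Ext C (act (g (χ m)) b) := by
    intro m hm
    exact (bxm n C Γ d h _ _ (hbox U1 hb1 m hm) (by rw [hfr, hd1])).2.2.2.1 _ (hbd (χ m)).1
  have hall : ∀ m, N ≤ m → ∀ U3 : Submodule ℝ (V n), Bx C Γ U3 v' → Module.finrank ℝ U3 = d →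
      act (g (χ m)) b ∈ U3 := by
    intro m hm
    exact (e4 n C Γ d h _ _ v' _ (hbox U1 hb1 m hm) (hbox U2 hb2 m hm) (by rw [hfr, hd1])
      (by rw [hfr, hd2]) (fun h0 => hne (himg _ _ _ h0)) (hbd (χ m)).1 (hbd (χ m)).2).1
  have hBd : ∀ m, N ≤ m → ∀ U3 : Submodule ℝ (V n), Bx C Γ U3 v' → Module.finrank ℝ U3 = d →
      Bd C U3 (act (g (χ m)) b) := by
    intro m hm U3 h3 h3d
    refine ⟨hall m hm U3 h3 h3d, (hbd (χ m)).1.2.1, (hbd (χ m)).1.2.2.1, ?_⟩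
    exact not_unit_of_ext P (hext m hm) h3.dim
  have hpar : ∀ m l, N ≤ m → N ≤ l → ∃ κ : ℝ, act (g (χ m)) b = κ • act (g (χ l)) b := by
    intro m l hm hl
    refine (e4 n C Γ d h _ _ v' _ (hbox U1 hb1 l hl) (hbox U2 hb2 l hl) (by rw [hfr, hd1])
      (by rw [hfr, hd2]) (fun h0 => hne (himg _ _ _ h0)) (hbd (χ l)).1 (hbd (χ l)).2).2 _
      (hBd m hm _ (hbox U1 hb1 l hl) (by rw [hfr, hd1]))
      (hBd m hm _ (hbox U2 hb2 l hl) (by rw [hfr, hd2]))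
  have hsh : Tendsto (fun m : ℕ => χ (m + N)) atTop atTop :=
    hχ.tendsto_atTop.comp (tendsto_add_atTop_nat N)
  refine hor n C Γ d h U1 v b ψ (fun m => c (φ (χ (m + N)))) (fun m => g (χ (m + N)))
    (fun m => s (χ (m + N))) p hb1 hd1 hB1 hψ (fun m => hc1 _) (fun m => hc2 _)
    (hc3.comp (hφ.tendsto_atTop.comp hsh)) (fun m => hg _) (fun m => hs _) hp
    (hlim.comp hsh) fun m l => hpar (m + N) (l + N) (by omega) (by omega)

end Pool.Agent.PCO.H20
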